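import Mathlib

set_option autoImplicit false

/-!
Symmetric 0/1 matrices with midpoints (MP_a46c6f_co, target (C), helper for rooted (TREE)):
if there is an induced `P4` then there is a good one.
-/

namespace Pool.Agent.H65.P3

open Finset

variable {X : Type} [DecidableEq X]

/-- `a - b - c - d` is an induced path -/
def P4 (M : X → X → Bool) (a b c d : X) : Prop :=
  M a b = true ∧ M b c = true ∧ M c d = true ∧ M a c = false ∧ M a d = false ∧ M b d = false

/-- the complementary matrix -/
def cm (M : X → X → Bool) : X → X → Bool := fun x y => !M x y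

/-- midpoints inside `C` -/
def Pairs (M : X → X → Bool) (C : Finset X) : Prop :=
  ∀ u ∈ C, ∀ v ∈ C, M u u = M v v → M u v ≠ M u u →
    ∃ g ∈ C, M g g ≠ M u u ∧ M g u ≠ M u u ∧ M g v ≠ M u u ∧
      ∀ y ∈ C, M y u = M y v → M y g = M y u

/-- no induced `P4` in `C` -/
def Free (M : X → X → Bool) (C : Finset X) : Prop :=
  ∀ a ∈ C, ∀ b ∈ C, ∀ c ∈ C, ∀ d ∈ C, ¬ P4 M a b c d

theorem cm_pairs {M : X → X → Bool} {C : Finset X} (h : Pairs M C) : Pairs (cm M) C := by
  intro u hu v hv h1 h2
  simp only [cm] at h1 h2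
  have h1' : M u u = M v v := by simpa using h1
  have h2' : M u v ≠ M u u := by simpa using h2
  obtain ⟨g, hg, g1, g2, g3, g4⟩ := h u hu v hv h1' h2'
  refine ⟨g, hg, ?_, ?_, ?_, ?_⟩
  · simpa [cm] using g1
  · simpa [cm] using g2
  · simpa [cm] using g3
  · intro y hy h3
    simp only [cm] at h3 ⊢
    have h3' : M y u = M y v := by simpa using h3
    rw [g4 y hy h3']

theorem cm_p4 {M : X → X → Bool} (hs : ∀ x y, M x y = M y x) {a b c d : X} (h : P4 (cm M) a b c d) :
    P4 M c a d b := by
  obtain ⟨h1, h2, h3, h4, h5, h6⟩ := h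
  simp only [cm, Bool.not_eq_true', Bool.not_eq_false'] at h1 h2 h3 h4 h5 h6
  refine ⟨?_, h5, ?_, h3, ?_, h1⟩
  · rw [hs]; exact h4
  · rw [hs]; exact h6
  · rw [hs]; exact h2

theorem p4_cm {M : X → X → Bool} (hs : ∀ x y, M x y = M y x) {a b c d : X} (h : P4 M a b c d) :
    P4 (cm M) b d a c := by
  obtain ⟨h1, h2, h3, h4, h5, h6⟩ := h
  refine ⟨?_, ?_, ?_, ?_, ?_, ?_⟩ <;> simp only [cm, Bool.not_eq_true', Bool.not_eq_false']
  · exact h6
  · rw [hs]; exact h5
  · exact h4
  · rw [hs]; exact h1
  · exact h2
  · rw [hs]; exact h3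

theorem p4_rev {M : X → X → Bool} (hs : ∀ x y, M x y = M y x) {a b c d : X} (h : P4 M a b c d) :
    P4 M d c b a := by
  obtain ⟨h1, h2, h3, h4, h5, h6⟩ := h
  refine ⟨?_, ?_, ?_, ?_, ?_, ?_⟩
  · rw [hs]; exact h3
  · rw [hs]; exact h2
  · rw [hs]; exact h1
  · rw [hs]; exact h6
  · rw [hs]; exact h5
  · rw [hs]; exact h4

theorem cm_free {M : X → X → Bool} (hs : ∀ x y, M x y = M y x) {C : Finset X} (h : Free M C) :
    Free (cm M) C := by
  intro a ha b hb c hc d hd hP
  exact h c hc a ha d hd b hb (cm_p4 hs hP)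

theorem cm_symm {M : X → X → Bool} (hs : ∀ x y, M x y = M y x) : ∀ x y, cm M x y = cm M y x := by
  intro x y; simp [cm, hs x y]

theorem cm_cm (M : X → X → Bool) : cm (cm M) = M := by
  funext x y; simp [cm]

/-- a splitting of `D` -/
def Split (M : X → X → Bool) (D : Finset X) : Prop :=
  ∃ (A B : Finset X) (β : Bool), A.Nonempty ∧ B.Nonempty ∧ Disjoint A B ∧ A ∪ B = D ∧
    ∀ a ∈ A, ∀ b ∈ B, M a b = β

theorem cm_split {M : X → X → Bool} {D : Finset X} (h : Split (cm M) D) : Split M D := by
  obtain ⟨A, B, β, hA, hB, hd, hu, hm⟩ := h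
  refine ⟨A, B, !β, hA, hB, hd, hu, ?_⟩
  intro a ha b hb
  have := hm a ha b hb
  simp only [cm] at this
  rw [← this]; simp

/-- one step of Seinsche's theorem, one side has a non-neighbour of `v` -/
theorem step_side {M : X → X → Bool} (hs : ∀ x y, M x y = M y x) {A B : Finset X} {v : X}
    (hv : v ∉ A ∪ B) (hAB : Disjoint A B)
    (hfree : Free M (insert v (A ∪ B))) (hm : ∀ a ∈ A, ∀ b ∈ B, M a b = false)
    (hA0 : ∃ x ∈ A, M v x = false) (hB1 : ∃ y ∈ B, M v y = true) :
    Split M (insert v (A ∪ B)) := by
  classical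
  obtain ⟨y, hyB, hy⟩ := hB1
  refine ⟨A.filter (fun x => M v x = false), insert v (A.filter (fun x => M v x = true) ∪ B), false,
    ?_, ⟨v, mem_insert_self _ _⟩, ?_, ?_, ?_⟩
  · obtain ⟨x, hx, hx0⟩ := hA0
    exact ⟨x, by simp [hx, hx0]⟩
  · rw [disjoint_left]
    intro x hx hx'
    simp only [mem_filter] at hx
    rw [mem_insert, mem_union, mem_filter] at hx'
    rcases hx' with rfl | ⟨_, h⟩ | h
    · exact hv (mem_union_left _ hx.1)
    · rw [hx.2] at h; exact Bool.false_ne_true h
    · exact (disjoint_left.1 hAB) hx.1 h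
  · ext x
    simp only [mem_union, mem_filter, mem_insert]
    constructor
    · rintro (⟨h, _⟩ | h | ⟨h, _⟩ | h)
      · exact Or.inr (Or.inl h)
      · exact Or.inl h
      · exact Or.inr (Or.inl h)
      · exact Or.inr (Or.inr h)
    · rintro (h | h | h)
      · exact Or.inr (Or.inl h)
      · cases hx : M v x
        · exact Or.inl ⟨h, rfl⟩
        · exact Or.inr (Or.inr (Or.inl ⟨h, rfl⟩))
      · exact Or.inr (Or.inr (Or.inr h))
  · intro a ha b hb
    simp only [mem_filter] at ha
    rw [mem_insert, mem_union, mem_filter] at hb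
    rcases hb with rfl | ⟨hb, hb1⟩ | hb
    · rw [hs]; exact ha.2
    · by_contra hab
      have hab' : M a b = true := by simpa using hab
      refine hfree a (by simp [ha.1]) b (by simp [hb]) v (by simp) y (by simp [hyB]) ⟨hab', ?_, hy, ?_, ?_, ?_⟩
      · rw [hs]; exact hb1
      · rw [hs]; exact ha.2
      · exact hm a ha.1 y hyB
      · exact hm b hb y hyB
    · exact hm a ha.1 b hb

theorem step_false {M : X → X → Bool} (hs : ∀ x y, M x y = M y x) {A B : Finset X} {v : X}
    (hv : v ∉ A ∪ B) (hAB : Disjoint A B) (hA : A.Nonempty) (hB : B.Nonempty)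
    (hfree : Free M (insert v (A ∪ B))) (hm : ∀ a ∈ A, ∀ b ∈ B, M a b = false) :
    Split M (insert v (A ∪ B)) := by
  classical
  have hvA : v ∉ A := fun h => hv (mem_union_left _ h)
  have hvB : v ∉ B := fun h => hv (mem_union_right _ h)
  by_cases hA1 : ∃ x ∈ A, M v x = true
  · by_cases hB1 : ∃ y ∈ B, M v y = true
    · by_cases hA0 : ∃ x ∈ A, M v x = false
      · exact step_side hs hv hAB hfree hm hA0 hB1
      · by_cases hB0 : ∃ y ∈ B, M v y = false
        · have := step_side (A := B) (B := A) hs (by rw [union_comm]; exact hv) hAB.symm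
            (by rw [union_comm]; exact hfree) (fun b hb a ha => by rw [hs]; exact hm a ha b hb) hB0 hA1
          rw [union_comm] at this; exact this
        · refine ⟨{v}, A ∪ B, true, ⟨v, mem_singleton_self v⟩, hA.mono subset_union_left,
            by simpa using hv, by ext x; simp [or_assoc], ?_⟩
          intro a ha b hb
          rw [mem_singleton] at ha
          subst ha
          rw [mem_union] at hb
          rcases hb with hb | hb
          · by_contra h; exact hA0 ⟨b, hb, by simpa using h⟩
          · by_contra h; exact hB0 ⟨b, hb, by simpa using h⟩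
    · refine ⟨B, insert v A, false, hB, ⟨v, mem_insert_self _ _⟩, ?_, ?_, ?_⟩
      · rw [disjoint_insert_right]; exact ⟨hvB, hAB.symm⟩
      · ext x; simp only [mem_union, mem_insert]; tauto
      · intro a ha b hb
        rw [mem_insert] at hb
        rcases hb with rfl | hb
        · rw [hs]; by_contra h; exact hB1 ⟨a, ha, by simpa using h⟩
        · rw [hs]; exact hm b hb a ha
  · refine ⟨A, insert v B, false, hA, ⟨v, mem_insert_self _ _⟩, ?_, ?_, ?_⟩
    · rw [disjoint_insert_right]; exact ⟨hvA, hAB⟩
    · ext x; simp only [mem_union, mem_insert]; tauto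
    · intro a ha b hb
      rw [mem_insert] at hb
      rcases hb with rfl | hb
      · rw [hs]; by_contra h; exact hA1 ⟨a, ha, by simpa using h⟩
      · exact hm a ha b hb

/-- **Seinsche** -/
theorem seinsche {M : X → X → Bool} (hs : ∀ x y, M x y = M y x) (n : ℕ) :
    ∀ D : Finset X, D.card = n + 2 → Free M D → Split M D := by
  classical
  induction n with
  | zero =>
    intro D hD _
    obtain ⟨x, y, hxy, rfl⟩ := card_eq_two.1 hD
    refine ⟨{x}, {y}, M x y, ⟨x, mem_singleton_self x⟩, ⟨y, mem_singleton_self y⟩, by simpa using hxy,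
      by ext z; simp, ?_⟩
    intro a ha b hb
    rw [mem_singleton] at ha hb
    rw [ha, hb]
  | succ n ih =>
    intro D hD hfree
    obtain ⟨v, hv⟩ : D.Nonempty := by rw [← card_pos]; omega
    have hcard : (D.erase v).card = n + 2 := by rw [card_erase_of_mem hv]; omega
    obtain ⟨A, B, β, hA, hB, hd, hu, hm⟩ := ih (D.erase v) hcard
      (fun a ha b hb c hc d hd => hfree a (mem_of_mem_erase ha) b (mem_of_mem_erase hb) c
        (mem_of_mem_erase hc) d (mem_of_mem_erase hd))
    have hDv : insert v (A ∪ B) = D := by rw [hu, insert_erase hv]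
    have hvn : v ∉ A ∪ B := by rw [hu]; simp
    rw [← hDv]
    rw [← hDv] at hfree
    cases β
    · exact step_false hs hvn hd hA hB hfree hm
    · apply cm_split
      refine step_false (cm_symm hs) hvn hd hA hB (cm_free hs hfree) ?_
      intro a ha b hb
      simp [cm, hm a ha b hb]

/-- a root of `D` -/
def Root (M : X → X → Bool) (D : Finset X) (r : X) : Prop := r ∈ D ∧ ∀ x ∈ D, M r x = M r r

theorem pairs_side {M : X → X → Bool} (hs : ∀ x y, M x y = M y x) {A B : Finset X}
    (hm : ∀ a ∈ A, ∀ b ∈ B, M a b = false) (hp : Pairs M (A ∪ B)) (hno : ¬ ∃ r, Root M (A ∪ B) r) :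
    Pairs M A := by
  intro u hu v hv h1 h2
  obtain ⟨g, hg, g1, g2, g3, g4⟩ := hp u (mem_union_left _ hu) v (mem_union_left _ hv) h1 h2
  rw [mem_union] at hg
  rcases hg with hg | hg
  · exact ⟨g, hg, g1, g2, g3, fun y hy => g4 y (mem_union_left _ hy)⟩
  · exfalso
    have hgu : M g u = false := by rw [hs]; exact hm u hu g hg
    have huu : M u u = true := by
      cases h : M u u
      · rw [hgu, h] at g2; exact absurd rfl g2
      · rfl
    have hgg : M g g = false := by
      cases h : M g g
      · rfl
      · rw [h, huu] at g1; exact absurd rfl g1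
    apply hno
    refine ⟨g, mem_union_right _ hg, ?_⟩
    intro x hx
    rw [hgg]
    have hx' := hx
    rw [mem_union] at hx
    rcases hx with hx | hx
    · rw [hs]; exact hm x hx g hg
    · have e1 : M x u = false := by rw [hs]; exact hm u hu x hx
      have e2 : M x v = false := by rw [hs]; exact hm v hv x hx
      rw [hs, g4 x hx' (by rw [e1, e2]), e1]

theorem root_step {M : X → X → Bool} (hs : ∀ x y, M x y = M y x) {A B : Finset X}
    (hA : A.Nonempty) (hB : B.Nonempty) (hm : ∀ a ∈ A, ∀ b ∈ B, M a b = false) (hp : Pairs M (A ∪ B))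
    (ihA : Pairs M A → ∃ r, Root M A r) (ihB : Pairs M B → ∃ r, Root M B r) :
    ∃ r, Root M (A ∪ B) r := by
  by_contra hno
  have hmB : ∀ b ∈ B, ∀ a ∈ A, M b a = false := fun b hb a ha => by rw [hs]; exact hm a ha b hb
  obtain ⟨p, hpA, hp1⟩ := ihA (pairs_side hs hm hp hno)
  obtain ⟨q, hqB, hq1⟩ := ihB (pairs_side hs hmB (by rw [union_comm]; exact hp)
    (by rw [union_comm]; exact hno))
  have hpp : M p p = true := by
    by_contra h
    have h' : M p p = false := by simpa using h
    refine hno ⟨p, mem_union_left _ hpA, ?_⟩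
    intro x hx
    rw [mem_union] at hx
    rcases hx with hx | hx
    · exact hp1 x hx
    · rw [h']; exact hm p hpA x hx
  have hqq : M q q = true := by
    by_contra h
    have h' : M q q = false := by simpa using h
    refine hno ⟨q, mem_union_right _ hqB, ?_⟩
    intro x hx
    rw [mem_union] at hx
    rcases hx with hx | hx
    · rw [h']; exact hmB q hqB x hx
    · exact hq1 x hx
  obtain ⟨g, hg, g1, g2, g3, _⟩ := hp p (mem_union_left _ hpA) q (mem_union_right _ hqB)
    (by rw [hpp, hqq]) (by rw [hm p hpA q hqB, hpp]; exact Bool.false_ne_true)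
  rw [mem_union] at hg
  rcases hg with hg | hg
  · apply g2; rw [hs]; exact hp1 g hg
  · apply g3; rw [hs, hq1 g hg, hqq, hpp]

theorem cm_root {M : X → X → Bool} {D : Finset X} {r : X} (h : Root (cm M) D r) : Root M D r := by
  refine ⟨h.1, ?_⟩
  intro x hx
  have := h.2 x hx
  simpa [cm] using this

/-- **the root lemma** -/
theorem root {M : X → X → Bool} (hs : ∀ x y, M x y = M y x) (n : ℕ) :
    ∀ D : Finset X, D.card ≤ n → D.Nonempty → Pairs M D → Free M D → ∃ r, Root M D r := by
  classical
  induction n with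
  | zero =>
    intro D hD hne
    rw [← card_pos] at hne; omega
  | succ n ih =>
    intro D hD hne hp hf
    have hpos : 0 < D.card := card_pos.2 hne
    by_cases h1 : D.card = 1
    · obtain ⟨x, rfl⟩ := card_eq_one.1 h1
      refine ⟨x, mem_singleton_self x, ?_⟩
      intro y hy
      rw [mem_singleton] at hy
      rw [hy]
    · obtain ⟨m, hmc⟩ : ∃ m, D.card = m + 2 := ⟨D.card - 2, by omega⟩
      obtain ⟨A, B, β, hA, hB, hd, hu, hm⟩ := seinsche hs m D hmc hf
      have hcA : A.card < D.card := by
        have := card_pos.2 hB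
        rw [← hu, card_union_of_disjoint hd]; omega
      have hcB : B.card < D.card := by
        have := card_pos.2 hA
        rw [← hu, card_union_of_disjoint hd]; omega
      have hfA : Free M A := fun a ha b hb c hc d hd' =>
        hf a (by rw [← hu]; exact mem_union_left _ ha) b (by rw [← hu]; exact mem_union_left _ hb) c
          (by rw [← hu]; exact mem_union_left _ hc) d (by rw [← hu]; exact mem_union_left _ hd')
      have hfB : Free M B := fun a ha b hb c hc d hd' =>
        hf a (by rw [← hu]; exact mem_union_right _ ha) b (by rw [← hu]; exact mem_union_right _ hb) c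
          (by rw [← hu]; exact mem_union_right _ hc) d (by rw [← hu]; exact mem_union_right _ hd')
      have hp' : Pairs M (A ∪ B) := by rw [hu]; exact hp
      have key : ∃ r, Root M (A ∪ B) r := by
        cases β
        · exact root_step hs hA hB hm hp' (fun h => ih A (by omega) hA h hfA)
            (fun h => ih B (by omega) hB h hfB)
        · obtain ⟨r, hr⟩ := root_step (M := cm M) (cm_symm hs) hA hB
            (fun a ha b hb => by simp [cm, hm a ha b hb]) (cm_pairs hp')
            (fun h => by
              have h' := cm_pairs h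
              rw [cm_cm] at h'
              obtain ⟨r, hr⟩ := ih A (by omega) hA h' hfA
              exact ⟨r, cm_root (by rw [cm_cm]; exact hr)⟩)
            (fun h => by
              have h' := cm_pairs h
              rw [cm_cm] at h'
              obtain ⟨r, hr⟩ := ih B (by omega) hB h' hfB
              exact ⟨r, cm_root (by rw [cm_cm]; exact hr)⟩)
          exact ⟨r, cm_root hr⟩
      rw [hu] at key
      exact key

end Pool.Agent.H65.P3
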