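import Pool.Agent.H65.P3.Core

set_option autoImplicit false

/-!
Symmetric 0/1 matrices with midpoints: an induced `P4` gives a good induced `P4`
(MP_a46c6f_co, target (C), helper for rooted (TREE)).
-/

namespace Pool.Agent.H65.P3

open Finset

variable {X : Type} [DecidableEq X]

/-- a cell in which no row is constant on an induced `P4` unless it is constant -/
structure MC (M : X → X → Bool) (C : Finset X) : Prop where
  symm : ∀ x y, M x y = M y x
  pairs : Pairs M C
  min : ∀ y ∈ C, ∀ a ∈ C, ∀ b ∈ C, ∀ c ∈ C, ∀ d ∈ C, P4 M a b c d → ∀ β, M y a = β → M y b = β →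
    M y c = β → M y d = β → ∀ x ∈ C, M y x = β

theorem MC.cm {M : X → X → Bool} {C : Finset X} (h : MC M C) : MC (cm M) C where
  symm := cm_symm h.symm
  pairs := cm_pairs h.pairs
  min := by
    intro y hy a ha b hb c hc d hd hP β h1 h2 h3 h4 x hx
    have hP' := cm_p4 h.symm hP
    have := h.min y hy c hc a ha d hd b hb hP' (!β) (by rw [← h3]; simp [P3.cm])
      (by rw [← h1]; simp [P3.cm]) (by rw [← h4]; simp [P3.cm]) (by rw [← h2]; simp [P3.cm]) x hx
    simp [P3.cm, this]

theorem root_of {M : X → X → Bool} {C : Finset X} (h : MC M C) (p : X → Prop)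
    (hp : ∀ u ∈ C, ∀ v ∈ C, ∀ g ∈ C, p u → p v → (∀ y ∈ C, M y u = M y v → M y g = M y u) → p g)
    {y : X} (hy : y ∈ C) {β : Bool} (hpy : ∀ x ∈ C, p x → M y x = β) (hyn : ∃ x ∈ C, M y x ≠ β)
    (hne : ∃ x ∈ C, p x) : ∃ r ∈ C, p r ∧ ∀ x ∈ C, p x → M r x = M r r := by
  classical
  obtain ⟨r, hr, hr1⟩ := root h.symm (C.filter p).card (C.filter p) le_rfl
    (by obtain ⟨x, hx, hx1⟩ := hne; exact ⟨x, by simp [hx, hx1]⟩)
    (by
      intro u hu v hv h1 h2
      rw [mem_filter] at hu hv
      obtain ⟨g, hg, g1, g2, g3, g4⟩ := h.pairs u hu.1 v hv.1 h1 h2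
      refine ⟨g, ?_, g1, g2, g3, ?_⟩
      · rw [mem_filter]
        exact ⟨hg, hp u hu.1 v hv.1 g hg hu.2 hv.2 g4⟩
      · intro z hz; rw [mem_filter] at hz; exact g4 z hz.1)
    (by
      intro a ha b hb c hc d hd hP
      rw [mem_filter] at ha hb hc hd
      obtain ⟨x, hx, hxn⟩ := hyn
      exact hxn (h.min y hy a ha.1 b hb.1 c hc.1 d hd.1 hP β (hpy a ha.1 ha.2) (hpy b hb.1 hb.2)
        (hpy c hc.1 hc.2) (hpy d hd.1 hd.2) x hx))
  rw [mem_filter] at hr
  exact ⟨r, hr.1, hr.2, fun x hx hpx => hr1 x (by simp [hx, hpx])⟩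

/-- the upper closure of a row -/
theorem plus {M : X → X → Bool} {C : Finset X} (h : MC M C) {y : X} (hy : y ∈ C)
    (h1 : ∃ x ∈ C, M y x = true) (h0 : ∃ x ∈ C, M y x = false) :
    ∃ z ∈ C, M y z = true ∧ M z z = true ∧ ∀ x ∈ C, M y x = true → M z x = true := by
  by_cases hyy : M y y = true
  · exact ⟨y, hy, hyy, hyy, fun x _ hx => hx⟩
  · have hyy' : M y y = false := by simpa using hyy
    obtain ⟨r, hr, hyr, hr1⟩ := root_of h (fun x => M y x = true)
      (by
        intro u _ v _ g _ hu hv hg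
        show M y g = true
        rw [hg y hy (by rw [hu, hv]), hu]) hy (β := true) (fun x _ hx => hx)
      (by obtain ⟨x, hx, hx0⟩ := h0; exact ⟨x, hx, by rw [hx0]; exact Bool.false_ne_true⟩) h1
    by_cases hrr : M r r = true
    · exact ⟨r, hr, hyr, hrr, fun x hx hyx => by rw [hr1 x hx hyx, hrr]⟩
    · exfalso
      have hrr' : M r r = false := by simpa using hrr
      obtain ⟨g, hg, g1, g2, g3, _⟩ := h.pairs y hy r hr (by rw [hyy', hrr'])
        (by rw [hyy']; intro h'; rw [h'] at hyr; exact Bool.false_ne_true hyr)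
      have hgy : M g y = true := by rw [hyy'] at g2; simpa using g2
      have hgr : M g r = true := by rw [hyy'] at g3; simpa using g3
      have := hr1 g hg (by rw [h.symm]; exact hgy)
      rw [h.symm, hgr, hrr'] at this
      exact Bool.false_ne_true this.symm

theorem minus {M : X → X → Bool} {C : Finset X} (h : MC M C) {y : X} (hy : y ∈ C)
    (h1 : ∃ x ∈ C, M y x = true) (h0 : ∃ x ∈ C, M y x = false) :
    ∃ z ∈ C, M y z = false ∧ M z z = false ∧ ∀ x ∈ C, M y x = false → M z x = false := by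
  obtain ⟨z, hz, z1, z2, z3⟩ := plus h.cm hy
    (by obtain ⟨x, hx, hx0⟩ := h0; exact ⟨x, hx, by simp [cm, hx0]⟩)
    (by obtain ⟨x, hx, hx1⟩ := h1; exact ⟨x, hx, by simp [cm, hx1]⟩)
  refine ⟨z, hz, by simpa [cm] using z1, by simpa [cm] using z2, ?_⟩
  intro x hx hyx
  have := z3 x hx (by simp [cm, hyx])
  simpa [cm] using this

/-- **(i)** the class of `d` has no full root -/
theorem no_full {M : X → X → Bool} {C : Finset X} (h : MC M C) {a b c d : X} (ha : a ∈ C) (hb : b ∈ C)
    (hc : c ∈ C) (hd : d ∈ C) (hP : P4 M a b c d) (hdd : M d d = true)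
    (hr : ∀ x ∈ C, M a x = false → M b x = false → M c x = true → M d x = true) : False := by
  have hs := h.symm
  obtain ⟨ab, bc, cd, ac, ad, bd⟩ := id hP
  have dc : M d c = true := by rw [hs]; exact cd
  have da : M d a = false := by rw [hs]; exact ad
  have db : M d b = false := by rw [hs]; exact bd
  -- there is a zero vertex
  obtain ⟨z, hz, z1, z2, z3⟩ := minus h hd ⟨c, hc, dc⟩ ⟨a, ha, da⟩
  have hza := z3 a ha da
  have hzb := z3 b hb db
  have hzc : M z c = false := by
    by_contra hcon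
    have hcon' : M z c = true := by simpa using hcon
    have := hr z hz (by rw [hs]; exact hza) (by rw [hs]; exact hzb) (by rw [hs]; exact hcon')
    rw [z1] at this; exact Bool.false_ne_true this
  have hzd : M z d = false := by rw [hs]; exact z1
  have hz0 := h.min z hz a ha b hb c hc d hd hP false hza hzb hzc hzd
  -- the class of `b`
  obtain ⟨ρ, hρ, ⟨aρ, cρ, dρ⟩, hρ1⟩ := root_of h (fun x => M a x = true ∧ M c x = true ∧ M d x = false)
    (by
      intro u _ v _ g _ hu hv hg
      refine ⟨?_, ?_, ?_⟩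
      · rw [hg a ha (by rw [hu.1, hv.1]), hu.1]
      · rw [hg c hc (by rw [hu.2.1, hv.2.1]), hu.2.1]
      · rw [hg d hd (by rw [hu.2.2, hv.2.2]), hu.2.2]) ha (β := true) (fun x _ hx => hx.1)
    ⟨c, hc, by rw [ac]; exact Bool.false_ne_true⟩ ⟨b, hb, ab, by rw [hs]; exact bc, db⟩
  have ρa : M ρ a = true := by rw [hs]; exact aρ
  have ρc : M ρ c = true := by rw [hs]; exact cρ
  have ρd : M ρ d = false := by rw [hs]; exact dρ
  have hρρ : M ρ ρ = true := by
    by_contra hcon
    have hcon' : M ρ ρ = false := by simpa using hcon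
    obtain ⟨σ, hσ, s1, s2, s3⟩ := plus h hρ ⟨a, ha, ρa⟩ ⟨ρ, hρ, hcon'⟩
    have σa := s3 a ha ρa
    have σc := s3 c hc ρc
    have σρ : M σ ρ = true := by rw [hs]; exact s1
    have σd : M σ d = true := by
      by_contra hc2
      have hc2' : M σ d = false := by simpa using hc2
      have := hρ1 σ hσ ⟨by rw [hs]; exact σa, by rw [hs]; exact σc, by rw [hs]; exact hc2'⟩
      rw [s1, hcon'] at this; exact Bool.false_ne_true this.symm
    have hP' : P4 M a ρ c d := ⟨aρ, ρc, cd, ac, ad, ρd⟩
    have := h.min σ hσ a ha ρ hρ c hc d hd hP' true σa σρ σc σd z hz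
    rw [hs, hz0 σ hσ] at this; exact Bool.false_ne_true this
  obtain ⟨g, hg, g1, g2, g3, g4⟩ := h.pairs ρ hρ d hd (by rw [hρρ, hdd])
    (by rw [ρd, hρρ]; exact Bool.false_ne_true)
  have gg : M g g = false := by rw [hρρ] at g1; simpa using g1
  have gρ : M g ρ = false := by rw [hρρ] at g2; simpa using g2
  have gd : M g d = false := by rw [hρρ] at g3; simpa using g3
  have cg : M c g = true := by rw [g4 c hc (by rw [cρ, cd]), cρ]
  have ag : M a g = false := by
    by_contra hcon
    have hcon' : M a g = true := by simpa using hcon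
    have := hρ1 g hg ⟨hcon', cg, by rw [hs]; exact gd⟩
    rw [hs, gρ, hρρ] at this; exact Bool.false_ne_true this
  have bg : M b g = true := by
    by_contra hcon
    have hcon' : M b g = false := by simpa using hcon
    have := hr g hg ag hcon' cg
    rw [hs, gd] at this; exact Bool.false_ne_true this
  have hP' : P4 M a ρ c g := ⟨aρ, ρc, cg, ac, ag, by rw [hs]; exact gρ⟩
  have bρ : M b ρ = true := by
    rw [hs, hρ1 b hb ⟨ab, by rw [hs]; exact bc, db⟩, hρρ]
  have := h.min b hb a ha ρ hρ c hc g hg hP' true (by rw [hs]; exact ab) bρ bc bg d hd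
  rw [bd] at this; exact Bool.false_ne_true this

/-- the empty root of the class of `d` -/
theorem rootD {M : X → X → Bool} {C : Finset X} (h : MC M C) {a b c d : X} (ha : a ∈ C) (hb : b ∈ C)
    (hc : c ∈ C) (hd : d ∈ C) (hP : P4 M a b c d) :
    ∃ r ∈ C, M a r = false ∧ M b r = false ∧ M c r = true ∧
      ∀ x ∈ C, M a x = false → M b x = false → M c x = true → M r x = false := by
  have hs := h.symm
  obtain ⟨ab, bc, cd, ac, ad, bd⟩ := id hP
  obtain ⟨r, hr, ⟨ar, br, cr⟩, hr1⟩ := root_of h (fun x => M a x = false ∧ M b x = false ∧ M c x = true)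
    (by
      intro u _ v _ g _ hu hv hg
      refine ⟨?_, ?_, ?_⟩
      · rw [hg a ha (by rw [hu.1, hv.1]), hu.1]
      · rw [hg b hb (by rw [hu.2.1, hv.2.1]), hu.2.1]
      · rw [hg c hc (by rw [hu.2.2, hv.2.2]), hu.2.2]) ha (β := false) (fun x _ hx => hx.1)
    ⟨b, hb, by rw [ab]; simp⟩ ⟨d, hd, ad, bd, cd⟩
  have hP' : P4 M a b c r := ⟨ab, bc, cr, ac, ar, br⟩
  have hrr : M r r = false := by
    by_contra hcon
    have hcon' : M r r = true := by simpa using hcon
    exact no_full h ha hb hc hr hP' hcon' (fun x hx h1 h2 h3 => by rw [hr1 x hx ⟨h1, h2, h3⟩, hcon'])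
  exact ⟨r, hr, ar, br, cr, fun x hx h1 h2 h3 => by rw [hr1 x hx ⟨h1, h2, h3⟩, hrr]⟩

/-- **(ii)** the row of the empty root of the class of `d` is below the row of `d` -/
theorem root_le {M : X → X → Bool} {C : Finset X} (h : MC M C) {a b c d : X} (ha : a ∈ C) (hb : b ∈ C)
    (hc : c ∈ C) (hd : d ∈ C) (hP : P4 M a b c d) {r : X} (hr : r ∈ C) (ar : M a r = false)
    (br : M b r = false) (cr : M c r = true)
    (hr0 : ∀ x ∈ C, M a x = false → M b x = false → M c x = true → M r x = false) :
    ∀ w ∈ C, M r w = true → M d w = true := by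
  intro w hw rw'
  by_contra hcon
  have dw : M d w = false := by simpa using hcon
  have hs := h.symm
  obtain ⟨ab, bc, cd, ac, ad, bd⟩ := id hP
  have dc : M d c = true := by rw [hs]; exact cd
  have da : M d a = false := by rw [hs]; exact ad
  have db : M d b = false := by rw [hs]; exact bd
  have rd : M r d = false := hr0 d hd ad bd cd
  have dr : M d r = false := by rw [hs]; exact rd
  have wr : M w r = true := by rw [hs]; exact rw'
  have wd : M w d = false := by rw [hs]; exact dw
  -- `d` is not a zero vertex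
  have hdP : ∀ p ∈ C, ∀ q ∈ C, ∀ s ∈ C, ∀ t ∈ C, P4 M p q s t → M d p = false → M d q = false →
      M d s = false → M d t = false → False := by
    intro p hp q hq s hs' t ht hP1 h1 h2 h3 h4
    have := h.min d hd p hp q hq s hs' t ht hP1 false h1 h2 h3 h4 c hc
    rw [dc] at this; exact Bool.false_ne_true this.symm
  have key : ∀ x ∈ C, M x r = true → M x d = false → M x a = true ∧ M x b = true := by
    intro x hx xr xd
    have dx : M d x = false := by rw [hs]; exact xd
    cases xa : M x a <;> cases xb : M x b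
    · exfalso
      cases xc : M x c
      · have := h.min x hx a ha b hb c hc d hd hP false xa xb xc xd r hr
        rw [xr] at this; exact Bool.false_ne_true this.symm
      · have := hr0 x hx (by rw [hs]; exact xa) (by rw [hs]; exact xb) (by rw [hs]; exact xc)
        rw [hs, xr] at this; exact Bool.false_ne_true this.symm
    · exfalso
      exact hdP a ha b hb x hx r hr ⟨ab, by rw [hs]; exact xb, xr, by rw [hs]; exact xa, ar, br⟩
        da db dx dr
    · exfalso
      exact hdP b hb a ha x hx r hr ⟨by rw [hs]; exact ab, by rw [hs]; exact xa, xr,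
        by rw [hs]; exact xb, br, ar⟩ db da dx dr
    · exact ⟨rfl, rfl⟩
  obtain ⟨wa, wb⟩ := key w hw wr wd
  have aw : M a w = true := by rw [hs]; exact wa
  have bw : M b w = true := by rw [hs]; exact wb
  have wc : M w c = false := by
    by_contra hcon2
    have wc : M w c = true := by simpa using hcon2
    have hP' : P4 M a b c r := ⟨ab, bc, cr, ac, ar, br⟩
    have := h.min w hw a ha b hb c hc r hr hP' true wa wb wc wr d hd
    rw [wd] at this; exact Bool.false_ne_true this
  -- the empty root of the class of `a`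
  obtain ⟨α, hα, dα, cα, bα, hα0⟩ := rootD h hd hc hb ha (p4_rev hs hP)
  have αa : M α a = false := hα0 a ha da (by rw [hs]; exact ac) (by rw [hs]; exact ab)
  have αw : M α w = false := hα0 w hw dw (by rw [hs]; exact wc) bw
  have αd : M α d = false := by rw [hs]; exact dα
  have αc : M α c = false := by rw [hs]; exact cα
  have αb : M α b = true := by rw [hs]; exact bα
  have αr : M α r = true := by
    by_contra hcon2
    have αr : M α r = false := by simpa using hcon2
    have hP' : P4 M a w r c := ⟨aw, wr, by rw [hs]; exact cr, ar, ac, wc⟩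
    have := h.min α hα a ha w hw r hr c hc hP' false αa αw αr αc b hb
    rw [αb] at this; exact Bool.false_ne_true this.symm
  have := (key α hα αr αd).1
  rw [αa] at this; exact Bool.false_ne_true this

/-- empty root of the class of `d`, together with the domination -/
theorem low {M : X → X → Bool} {C : Finset X} (h : MC M C) {a b c d : X} (ha : a ∈ C) (hb : b ∈ C)
    (hc : c ∈ C) (hd : d ∈ C) (hP : P4 M a b c d) :
    ∃ r ∈ C, M a r = false ∧ M b r = false ∧ M c r = true ∧
      (∀ x ∈ C, M a x = false → M b x = false → M c x = true → M r x = false) ∧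
      ∀ w ∈ C, M r w = true → M d w = true := by
  obtain ⟨r, hr, ar, br, cr, hr0⟩ := rootD h ha hb hc hd hP
  exact ⟨r, hr, ar, br, cr, hr0, root_le h ha hb hc hd hP hr ar br cr hr0⟩

/-- the number of neighbours in `C` -/
def dg (M : X → X → Bool) (C : Finset X) (x : X) : ℕ := (C.filter fun y => M x y = true).card

theorem dg_eq {M : X → X → Bool} {C : Finset X} {r d : X} (h : ∀ w ∈ C, M r w = true → M d w = true)
    (hle : dg M C d ≤ dg M C r) : ∀ w ∈ C, M d w = M r w := by
  have hsub : (C.filter fun y => M r y = true) ⊆ C.filter fun y => M d y = true := by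
    intro y hy
    rw [mem_filter] at hy ⊢
    exact ⟨hy.1, h y hy.1 hy.2⟩
  have heq := Finset.eq_of_subset_of_card_le hsub hle
  intro w hw
  have h1 : (w ∈ C.filter fun y => M r y = true) ↔ (w ∈ C.filter fun y => M d y = true) := by rw [heq]
  simp only [mem_filter, hw, true_and] at h1
  cases h2 : M r w
  · cases h3 : M d w
    · rfl
    · rw [h2] at h1; exact absurd (h1.2 h3) Bool.false_ne_true
  · exact h1.1 h2

/-- the potential -/
def psi (M : X → X → Bool) (C : Finset X) (q : X × X × X × X) : ℕ :=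
  dg M C q.1 + dg M C q.2.2.2 + dg (cm M) C q.2.1 + dg (cm M) C q.2.2.1

/-- in a `psi`-minimal `P4` the last vertex is an empty root -/
theorem d_root {M : X → X → Bool} {C : Finset X} (h : MC M C) {a b c d : X} (ha : a ∈ C) (hb : b ∈ C)
    (hc : c ∈ C) (hd : d ∈ C) (hP : P4 M a b c d)
    (hmin : ∀ r ∈ C, P4 M a b c r → dg M C d ≤ dg M C r) :
    ∀ x ∈ C, M a x = false → M b x = false → M c x = true → M d x = false := by
  obtain ⟨r, hr, ar, br, cr, hr0, hle⟩ := low h ha hb hc hd hP
  have hP' : P4 M a b c r := ⟨hP.1, hP.2.1, cr, hP.2.2.2.1, ar, br⟩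
  have heq := dg_eq hle (hmin r hr hP')
  intro x hx h1 h2 h3
  rw [heq x hx]; exact hr0 x hx h1 h2 h3

/-- **a good `P4` of a minimal cell** -/
theorem good {M : X → X → Bool} {C : Finset X} (h : MC M C)
    (hne : ∃ a ∈ C, ∃ b ∈ C, ∃ c ∈ C, ∃ d ∈ C, P4 M a b c d) :
    ∃ a ∈ C, ∃ b ∈ C, ∃ c ∈ C, ∃ d ∈ C, P4 M a b c d ∧
      ∀ w ∈ C, ¬ (M w b ≠ M w c ∧ M w a ≠ M w d) := by
  classical
  have hs := h.symm
  set S : Finset (X × X × X × X) := (C ×ˢ C ×ˢ C ×ˢ C).filter
    (fun q => P4 M q.1 q.2.1 q.2.2.1 q.2.2.2) with hS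
  have memS : ∀ a b c d, (a, b, c, d) ∈ S ↔ (a ∈ C ∧ b ∈ C ∧ c ∈ C ∧ d ∈ C) ∧ P4 M a b c d := by
    intro a b c d
    simp [hS, mem_product]
  have hSne : S.Nonempty := by
    obtain ⟨a, ha, b, hb, c, hc, d, hd, hP⟩ := hne
    exact ⟨(a, b, c, d), (memS a b c d).2 ⟨⟨ha, hb, hc, hd⟩, hP⟩⟩
  obtain ⟨⟨a, b, c, d⟩, hq, hmin⟩ := exists_min_image S (psi M C) hSne
  obtain ⟨⟨ha, hb, hc, hd⟩, hP⟩ := (memS a b c d).1 hq
  have rD := d_root h ha hb hc hd hP (by
    intro r hr hP'
    have := hmin (a, b, c, r) ((memS a b c r).2 ⟨⟨ha, hb, hc, hr⟩, hP'⟩)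
    simp only [psi] at this; omega)
  have rA := d_root h hd hc hb ha (p4_rev hs hP) (by
    intro r hr hP'
    have := hmin (r, b, c, d) ((memS r b c d).2 ⟨⟨hr, hb, hc, hd⟩, p4_rev hs hP'⟩)
    simp only [psi] at this; omega)
  have hcmcm : ∀ x y z t, P4 (cm M) x y z t → P4 M z x t y := fun x y z t hh => cm_p4 hs hh
  have rC := d_root h.cm hb hd ha hc (p4_cm hs hP) (by
    intro r hr hP'
    have := hmin (a, b, r, d) ((memS a b r d).2 ⟨⟨ha, hb, hr, hd⟩, hcmcm _ _ _ _ hP'⟩)
    simp only [psi] at this; omega)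
  have rB := d_root h.cm hc ha hd hb (p4_rev (cm_symm hs) (p4_cm hs hP)) (by
    intro r hr hP'
    have h2 := hcmcm _ _ _ _ (p4_rev (cm_symm hs) hP')
    have := hmin (a, r, c, d) ((memS a r c d).2 ⟨⟨ha, hr, hc, hd⟩, h2⟩)
    simp only [psi] at this; omega)
  refine ⟨a, ha, b, hb, c, hc, d, hd, hP, ?_⟩
  rintro w hw ⟨h1, h2⟩
  cases wa : M w a <;> cases wb : M w b <;> cases wc : M w c <;> cases wd : M w d <;>
    simp only [wa, wb, wc, wd, ne_eq, not_true_eq_false, Bool.false_eq_true, not_false_eq_true,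
      Bool.true_eq_false, reduceCtorEq] at h1 h2
  · -- sees `c, d`
    have := rD w hw (by rw [hs]; exact wa) (by rw [hs]; exact wb) (by rw [hs]; exact wc)
    rw [hs, wd] at this; exact Bool.false_ne_true this.symm
  · -- sees `b, d`
    have := rC w hw (by simp [cm, hs b w, wb]) (by simp [cm, hs d w, wd]) (by simp [cm, hs a w, wa])
    simp [cm, hs c w, wc] at this
  · -- sees `a, c`
    have := rB w hw (by simp [cm, hs c w, wc]) (by simp [cm, hs a w, wa]) (by simp [cm, hs d w, wd])
    simp [cm, hs b w, wb] at this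
  · -- sees `a, b`
    have := rA w hw (by rw [hs]; exact wd) (by rw [hs]; exact wc) (by rw [hs]; exact wb)
    rw [hs, wa] at this; exact Bool.false_ne_true this.symm

/-- **(P3)**: a symmetric matrix with midpoints and an induced `P4` has a good induced `P4` -/
theorem p3 [Fintype X] {M : X → X → Bool} (hs : ∀ x y, M x y = M y x)
    (hp : ∀ u v, M u u = M v v → M u v ≠ M u u → ∃ g, M g g ≠ M u u ∧ M g u ≠ M u u ∧
      M g v ≠ M u u ∧ ∀ y, M y u = M y v → M y g = M y u)
    (h : ∃ a b c d, P4 M a b c d) :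
    ∃ a b c d, P4 M a b c d ∧
      ∀ w, (∀ y, M y a = M y b → M y a = M y c → M y a = M y d → M y w = M y a) →
        ¬ (M w b ≠ M w c ∧ M w a ≠ M w d) := by
  classical
  set wid : X × X × X × X → Finset X := fun q => univ.filter
    (fun y => ¬ (M y q.1 = M y q.2.1 ∧ M y q.1 = M y q.2.2.1 ∧ M y q.1 = M y q.2.2.2)) with hwid
  have memw : ∀ a b c d y, y ∉ wid (a, b, c, d) ↔ (M y a = M y b ∧ M y a = M y c ∧ M y a = M y d) := by
    intro a b c d y
    simp [hwid]
  set S : Finset (X × X × X × X) := univ.filter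
    (fun q => P4 M q.1 q.2.1 q.2.2.1 q.2.2.2) with hS
  have memS : ∀ a b c d, (a, b, c, d) ∈ S ↔ P4 M a b c d := by
    intro a b c d
    simp [hS]
  have hSne : S.Nonempty := by
    obtain ⟨a, b, c, d, hP⟩ := h
    exact ⟨(a, b, c, d), (memS a b c d).2 hP⟩
  obtain ⟨⟨a, b, c, d⟩, hq, hmin⟩ := exists_min_image S (fun q => (wid q).card) hSne
  have hP := (memS a b c d).1 hq
  set C : Finset X := univ.filter (fun x => ∀ y, y ∉ wid (a, b, c, d) → M y x = M y a) with hC
  have memC : ∀ x, x ∈ C ↔ ∀ y, y ∉ wid (a, b, c, d) → M y x = M y a := by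
    intro x; simp [hC]
  have hsub : ∀ a' b' c' d', a' ∈ C → b' ∈ C → c' ∈ C → d' ∈ C →
      wid (a', b', c', d') ⊆ wid (a, b, c, d) := by
    intro a' b' c' d' ha hb hc hd y hy
    by_contra hn
    have e1 := (memC a').1 ha y hn
    have e2 := (memC b').1 hb y hn
    have e3 := (memC c').1 hc y hn
    have e4 := (memC d').1 hd y hn
    exact ((memw a' b' c' d' y).2 ⟨by rw [e1, e2], by rw [e1, e3], by rw [e1, e4]⟩) hy
  have hMC : MC M C := by
    refine ⟨hs, ?_, ?_⟩
    · intro u hu v hv h1 h2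
      obtain ⟨g, g1, g2, g3, g4⟩ := hp u v h1 h2
      refine ⟨g, ?_, g1, g2, g3, fun y _ hy => g4 y hy⟩
      rw [memC]
      intro y hy
      have e1 := (memC u).1 hu y hy
      have e2 := (memC v).1 hv y hy
      rw [g4 y (by rw [e1, e2]), e1]
    · intro y _ a' ha b' hb c' hc d' hd hP' β h1 h2 h3 h4 x hx
      have hle := hmin (a', b', c', d') ((memS a' b' c' d').2 hP')
      have heq := Finset.eq_of_subset_of_card_le (hsub a' b' c' d' ha hb hc hd) hle
      have hy : y ∉ wid (a, b, c, d) := by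
        rw [← heq]
        exact (memw a' b' c' d' y).2 ⟨by rw [h1, h2], by rw [h1, h3], by rw [h1, h4]⟩
      rw [(memC x).1 hx y hy, ← (memC a').1 ha y hy, h1]
  obtain ⟨a', ha, b', hb, c', hc, d', hd, hP', hgood⟩ := good hMC ⟨a, by rw [memC]; intro y _; rfl,
    b, by rw [memC]; intro y hy; exact ((memw a b c d y).1 hy).1.symm,
    c, by rw [memC]; intro y hy; exact ((memw a b c d y).1 hy).2.1.symm,
    d, by rw [memC]; intro y hy; exact ((memw a b c d y).1 hy).2.2.symm, hP⟩
  refine ⟨a', b', c', d', hP', ?_⟩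
  intro w hw
  apply hgood w
  rw [memC]
  intro y hy
  have e1 := (memC a').1 ha y hy
  have e2 := (memC b').1 hb y hy
  have e3 := (memC c').1 hc y hy
  have e4 := (memC d').1 hd y hy
  rw [hw y (by rw [e1, e2]) (by rw [e1, e3]) (by rw [e1, e4]), e1]

end Pool.Agent.H65.P3
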